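import Mathlib

set_option autoImplicit false

namespace Pool.Agent.Results.MP_2248a2_co.RamseyDiscrepancy

/-- bit mask of the connection set `{1, 6, 10, 15, 18, 23, 27, 32}` -/
def msk : ℕ := 2 ^ 1 + 2 ^ 6 + 2 ^ 10 + 2 ^ 15 + 2 ^ 18 + 2 ^ 23 + 2 ^ 27 + 2 ^ 32

/-- adjacency in the circulant graph `T` on `ℤ/33` with connection set `±1, ±6, ±10, ±15` -/
def adjB (a b : ℕ) : Bool := msk.testBit ((a + 33 - b) % 33)

/-- search: `srch n l k = true` certifies that the list `l` has no pairwise nonadjacent sublist
of length `k` -/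
def srch : ℕ → List ℕ → ℕ → Bool
  | _, _, 0 => false
  | 0, _, _ + 1 => false
  | _ + 1, [], _ + 1 => true
  | n + 1, v :: l, k + 1 =>
    if l.length < k then true
    else srch n l (k + 1) && srch n (l.filter (fun u => !adjB v u)) k

lemma srch_spec : ∀ (n : ℕ) (l : List ℕ) (k : ℕ), srch n l k = true →
    ∀ I : List ℕ, I.Sublist l → I.Pairwise (fun a b => adjB a b = false) → I.length ≠ k := by
  intro n
  induction n with
  | zero =>
    intro l k h
    cases k <;> simp [srch] at h
  | succ n ih =>
    intro l k h I hI hp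
    cases k with
    | zero => simp [srch] at h
    | succ k =>
      cases l with
      | nil =>
        rw [List.sublist_nil.1 hI]
        simp
      | cons v l =>
        rw [srch] at h
        split at h
        · rename_i hlt
          have := hI.length_le
          simp only [List.length_cons] at this
          omega
        · rw [Bool.and_eq_true] at h
          rw [List.sublist_cons_iff] at hI
          rcases hI with hI | ⟨I', rfl, hI'⟩
          · exact ih _ _ h.1 I hI hp
          · rw [List.pairwise_cons] at hp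
            have h1 : I'.Sublist (l.filter (fun u => !adjB v u)) := by
              have h2 := hI'.filter (fun u => !adjB v u)
              have h3 : I'.filter (fun u => !adjB v u) = I' := by
                rw [List.filter_eq_self]
                intro u hu
                rw [hp.1 u hu]; rfl
              rwa [h3] at h2
            have := ih _ _ h.2 I' h1 hp.2
            simp only [List.length_cons]
            omega

lemma srch_33 : srch 33 (List.range 33) 9 = true := by
  decide +kernel

/-- the circulant graph -/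
def T : SimpleGraph (Fin 33) where
  Adj a b := adjB a b = true
  symm := ⟨by decide +kernel⟩
  loopless := ⟨by decide +kernel⟩

instance : DecidableRel T.Adj := fun a b => by unfold T; infer_instance

lemma T_triangleFree : ∀ a b c : Fin 33, T.Adj a b → T.Adj b c → ¬ T.Adj a c := by
  have h : ∀ a b c : Fin 33, adjB a b = true → adjB b c = true → ¬ adjB a c = true := by
    decide +kernel
  exact h

lemma T_indep (s : Finset (Fin 33)) (hs : ∀ a ∈ s, ∀ b ∈ s, ¬ T.Adj a b) : s.card ≤ 8 := by
  by_contra hcon
  obtain ⟨t, hts, htc⟩ := Finset.exists_subset_card_eq (show 9 ≤ s.card by omega)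
  let I : List ℕ := (List.range 33).filter (fun i => ∃ h : i < 33, (⟨i, h⟩ : Fin 33) ∈ t)
  have hI : I.Sublist (List.range 33) := List.filter_sublist
  have hmem : ∀ i, i ∈ I ↔ ∃ h : i < 33, (⟨i, h⟩ : Fin 33) ∈ t := by
    intro i
    simp only [I, List.mem_filter, List.mem_range, decide_eq_true_eq]
    exact ⟨fun h => h.2, fun h => ⟨h.1, h⟩⟩
  have hp : I.Pairwise (fun a b => adjB a b = false) := by
    apply List.Pairwise.imp_of_mem (R := fun _ _ => True)
    · intro a b ha hb _
      obtain ⟨ha1, ha2⟩ := (hmem a).1 ha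
      obtain ⟨hb1, hb2⟩ := (hmem b).1 hb
      have := hs _ (hts ha2) _ (hts hb2)
      have h2 : ¬ adjB a b = true := this
      simpa using h2
    · exact List.pairwise_of_forall (fun _ _ => trivial)
  have hlen : I.length = 9 := by
    have h1 : I.Nodup := (List.nodup_range).sublist hI
    have h2 : I.toFinset = t.map Fin.valEmbedding := by
      ext i
      rw [List.mem_toFinset, hmem, Finset.mem_map]
      constructor
      · rintro ⟨h, hi⟩
        exact ⟨_, hi, rfl⟩
      · rintro ⟨a, ha, rfl⟩
        exact ⟨a.2, ha⟩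
    rw [← List.toFinset_card_of_nodup h1, h2, Finset.card_map, htc]
  exact srch_spec _ _ _ srch_33 I hI hp hlen

/-- the graph: complement of the circulant graph -/
def G : SimpleGraph (Fin 33) := Tᶜ

/-- a proper colouring with 17 colours -/
def c (v : Fin 33) : Fin 17 := ⟨(v : ℕ) / 2, by omega⟩

lemma c_proper : ∀ u v, G.Adj u v → c u ≠ c v := by
  have h : ∀ u v : Fin 33, u ≠ v ∧ ¬ adjB u v = true → c u ≠ c v := by decide +kernel
  intro u v huv
  exact h u v ((SimpleGraph.compl_adj T u v).1 huv)

/-- colour classes have at most two vertices -/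
lemma card_le (s : Set (Fin 33)) (k : ℕ) (h : (G.induce s).Colorable k) : s.ncard ≤ 2 * k := by
  classical
  obtain ⟨col⟩ := h
  by_contra hcon
  have hcard : Fintype.card s = s.ncard := by rw [← Nat.card_eq_fintype_card, Nat.card_coe_set_eq]
  obtain ⟨i, hi⟩ := Fintype.exists_lt_card_fiber_of_mul_lt_card (fun v : s => col v) (n := 2) (by
    rw [hcard, Fintype.card_fin]; omega)
  rw [Finset.two_lt_card] at hi
  obtain ⟨x, hx, y, hy, z, hz, hxy, hxz, hyz⟩ := hi
  simp only [Finset.mem_filter, Finset.mem_univ, true_and] at hx hy hz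
  have key : ∀ a b : s, a ≠ b → col a = i → col b = i → T.Adj a b := by
    intro a b hab ha hb
    by_contra hT
    have : (G.induce s).Adj a b := by
      show G.Adj a b
      exact (SimpleGraph.compl_adj T _ _).2 ⟨fun h => hab (Subtype.ext h), hT⟩
    exact col.valid this (ha.trans hb.symm)
  exact T_triangleFree x y z (key x y hxy hx hy) (key y z hyz hy hz) (key x z hxz hx hz)

lemma chi_ge : (17 : ℕ∞) ≤ G.chromaticNumber := by
  by_contra hcon
  rw [not_le] at hcon
  have h1 : G.chromaticNumber ≤ (16 : ℕ) := by
    have : G.chromaticNumber < ((16 : ℕ) : ℕ∞) + 1 := by exact_mod_cast hcon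
    exact Order.le_of_lt_add_one this
  rw [SimpleGraph.chromaticNumber_le_iff_colorable] at h1
  obtain ⟨col⟩ := h1
  have h2 : (G.induce Set.univ).Colorable 16 :=
    ⟨SimpleGraph.Coloring.mk (fun v => col v.1) (fun {u v} h => col.valid h)⟩
  have := card_le Set.univ 16 h2
  rw [Set.ncard_univ, Nat.card_fin] at this
  omega

lemma omega_le : G.cliqueNum ≤ 8 := by
  obtain ⟨s, hs⟩ := G.exists_isNClique_cliqueNum
  have h1 := T_indep s (by
    intro a ha b hb hab
    have hne : a ≠ b := hab.ne
    have := hs.isClique ha hb hne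
    exact ((SimpleGraph.compl_adj T a b).1 this).2 hab)
  rw [hs.card_eq] at h1
  exact h1

/-- There are a finite graph `G` and a proper colouring `c` of `G` such that every induced subgraph
`H = G[s]` satisfies `|c(H)| - χ(H) < χ(G) - ω(G)`, written as
`|c(H)| + ω(G) < χ(G) + χ(H)`. -/
theorem result :
    ∃ (V : Type) (_ : Fintype V) (G : SimpleGraph V) (c : G.Coloring ℕ),
      ∀ s : Set V, (((fun v => c v) '' s).ncard : ℕ∞) + (G.cliqueNum : ℕ∞) <
        G.chromaticNumber + (G.induce s).chromaticNumber := by
  classical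
  refine ⟨Fin 33, inferInstance, G,
    SimpleGraph.Coloring.mk (fun v => (c v : ℕ)) (fun {u v} h h' => c_proper u v h (Fin.ext h')),
    ?_⟩
  intro s
  have hfin : (G.induce s).chromaticNumber ≠ ⊤ := by
    rw [SimpleGraph.chromaticNumber_ne_top_iff_exists]
    exact ⟨_, SimpleGraph.colorable_of_fintype _⟩
  obtain ⟨k, hk⟩ := ENat.ne_top_iff_exists.1 hfin
  have hcol : (G.induce s).Colorable k := by
    rw [← SimpleGraph.chromaticNumber_le_iff_colorable, hk]
  have h1 := card_le s k hcol
  have h2 : ((fun v => (c v : ℕ)) '' s).ncard ≤ s.ncard := Set.ncard_image_le (Set.toFinite s)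
  have h3 : ((fun v => (c v : ℕ)) '' s).ncard ≤ 17 := by
    have hsub : ((fun v => (c v : ℕ)) '' s) ⊆ ((Finset.range 17 : Finset ℕ) : Set ℕ) := by
      rintro _ ⟨v, -, rfl⟩
      simp
    have := Set.ncard_le_ncard hsub (Finset.finite_toSet _)
    rwa [Set.ncard_coe_finset, Finset.card_range] at this
  have h4 := omega_le
  have h5 : ((fun v => (c v : ℕ)) '' s).ncard + G.cliqueNum < 17 + k := by omega
  calc (((fun v => (c v : ℕ)) '' s).ncard : ℕ∞) + (G.cliqueNum : ℕ∞)
      = (((((fun v => (c v : ℕ)) '' s).ncard + G.cliqueNum : ℕ)) : ℕ∞) := by push_cast; rfl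
    _ < ((17 + k : ℕ) : ℕ∞) := by exact_mod_cast h5
    _ = (17 : ℕ∞) + (k : ℕ∞) := by push_cast; rfl
    _ ≤ G.chromaticNumber + (G.induce s).chromaticNumber := by
      rw [← hk]
      gcongr
      exact chi_ge

end Pool.Agent.Results.MP_2248a2_co.RamseyDiscrepancy
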